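import Pool.Agent.Helper13.Sof.Goals
import Pool.Agent.Helper13.Sof.Basic

/-!
# Greedy decomposition into minimal sets
-/

set_option autoImplicit false

namespace Pool.Agent.Helper90.Sof

open Finset Pool.Agent.Helper13.Sof

open Classical in
theorem main {n : ℕ} {A : Type} [Fintype A] (ξ : Fin n → Equiv.Perm A) (η : ℝ) (hη : 0 < η) :
    ∀ (c : ℕ) (R : Finset A), R.card = c → ∀ k0 : ℕ, ∃ q : A → ℕ, (∀ s ∈ R, k0 ≤ q s) ∧
      (∀ k : ℕ, (∃ s ∈ R, q s = k) → ∀ Q : Finset A, Q.Nonempty → Q ⊆ R → (∀ s ∈ Q, k ≤ q s) →
        er ξ (R.filter (fun s => k ≤ q s)) Q ≤ η * (Q.card : ℝ) →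
        (R.filter (fun s => q s = k)).card ≤ Q.card) ∧
      ∑ i, cnt (fun s => s ∈ R ∧ ξ i s ∈ R ∧ q (ξ i s) ≠ q s) ≤ η * (R.card : ℝ) := by
  intro c
  induction c using Nat.strong_induction_on with
  | _ c ih =>
    intro R hR k0
    by_cases hne : R.Nonempty
    · have hRR : er ξ R R ≤ η * (R.card : ℝ) := by
        have h0 : er ξ R R = 0 := by
          unfold er
          refine Finset.sum_eq_zero fun i _ => ?_
          have e1 : cnt (fun s => s ∈ R ∧ ξ i s ∈ R ∧ ξ i s ∉ R) = 0 := by
            have h1 : cnt (fun s => s ∈ R ∧ ξ i s ∈ R ∧ ξ i s ∉ R) ≤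
                cnt (fun s => s ∈ (∅ : Finset A)) :=
              cnt_mono fun s hs => absurd hs.2.1 hs.2.2
            rw [cnt_mem] at h1
            have h2 := cnt_nonneg (fun s => s ∈ R ∧ ξ i s ∈ R ∧ ξ i s ∉ R)
            simp only [card_empty, Nat.cast_zero] at h1
            linarith
          have e2 : cnt (fun s => s ∈ R ∧ s ∉ R ∧ ξ i s ∈ R) = 0 := by
            have h1 : cnt (fun s => s ∈ R ∧ s ∉ R ∧ ξ i s ∈ R) ≤
                cnt (fun s => s ∈ (∅ : Finset A)) :=
              cnt_mono fun s hs => absurd hs.1 hs.2.1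
            rw [cnt_mem] at h1
            have h2 := cnt_nonneg (fun s => s ∈ R ∧ s ∉ R ∧ ξ i s ∈ R)
            simp only [card_empty, Nat.cast_zero] at h1
            linarith
          rw [e1, e2, add_zero]
        rw [h0]
        positivity
      obtain ⟨B, hB, hmin⟩ := Finset.exists_min_image
        (R.powerset.filter (fun B => B.Nonempty ∧ er ξ R B ≤ η * (B.card : ℝ)))
        (fun B => B.card) ⟨R, by simp [hne, hRR]⟩
      simp only [mem_filter, mem_powerset] at hB hmin
      obtain ⟨hBR, hBne, hBer⟩ := hB
      have hcard : (R \ B).card < c := by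
        rw [← hR]
        refine Finset.card_lt_card ⟨sdiff_subset, fun h => ?_⟩
        obtain ⟨b, hb⟩ := hBne
        exact (mem_sdiff.1 (h (hBR hb))).2 hb
      obtain ⟨q1, g1, g2, g3⟩ := ih _ hcard (R \ B) rfl (k0 + 1)
      have qB : ∀ s, s ∈ B → (if s ∈ B then k0 else q1 s) = k0 := fun s hs => if_pos hs
      have qN : ∀ s, s ∉ B → (if s ∈ B then k0 else q1 s) = q1 s := fun s hs => if_neg hs
      refine ⟨fun s => if s ∈ B then k0 else q1 s, ?_, ?_, ?_⟩
      · intro s hs
        by_cases h : s ∈ B
        · simp only [qB s h]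
          exact le_rfl
        · simp only [qN s h]
          exact le_trans (Nat.le_succ _) (g1 s (mem_sdiff.2 ⟨hs, h⟩))
      · rintro k ⟨s, hsR, hsk⟩ Q hQ hQR hQk hQer
        beta_reduce at hsk hQk hQer ⊢
        by_cases hk : k = k0
        · subst hk
          have e1 : R.filter (fun s => k ≤ if s ∈ B then k else q1 s) = R := by
            refine Finset.filter_true_of_mem fun s hs => ?_
            by_cases h : s ∈ B
            · rw [if_pos h]
            · rw [if_neg h]
              exact le_trans (Nat.le_succ _) (g1 s (mem_sdiff.2 ⟨hs, h⟩))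
          have e2 : R.filter (fun s => (if s ∈ B then k else q1 s) = k) = B := by
            ext t
            rw [mem_filter]
            constructor
            · rintro ⟨ht, ht'⟩
              by_contra h
              rw [if_neg h] at ht'
              have := g1 t (mem_sdiff.2 ⟨ht, h⟩)
              omega
            · intro h
              exact ⟨hBR h, if_pos h⟩
          rw [e1] at hQer
          rw [e2]
          exact hmin Q ⟨hQR, hQ, hQer⟩
        · have hk' : k0 < k := by
            have hsB : s ∉ B := by
              intro h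
              rw [if_pos h] at hsk
              exact hk hsk.symm
            rw [if_neg hsB] at hsk
            have := g1 s (mem_sdiff.2 ⟨hsR, hsB⟩)
            omega
          have e1 : R.filter (fun s => k ≤ if s ∈ B then k0 else q1 s) =
              (R \ B).filter (fun s => k ≤ q1 s) := by
            ext t
            rw [mem_filter, mem_filter, mem_sdiff]
            constructor
            · rintro ⟨ht, ht'⟩
              have h : t ∉ B := by
                intro h
                rw [if_pos h] at ht'
                omega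
              rw [if_neg h] at ht'
              exact ⟨⟨ht, h⟩, ht'⟩
            · rintro ⟨⟨ht, h⟩, ht'⟩
              exact ⟨ht, by rw [if_neg h]; exact ht'⟩
          have e2 : R.filter (fun s => (if s ∈ B then k0 else q1 s) = k) =
              (R \ B).filter (fun s => q1 s = k) := by
            ext t
            rw [mem_filter, mem_filter, mem_sdiff]
            constructor
            · rintro ⟨ht, ht'⟩
              have h : t ∉ B := by
                intro h
                rw [if_pos h] at ht'
                omega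
              rw [if_neg h] at ht'
              exact ⟨⟨ht, h⟩, ht'⟩
            · rintro ⟨⟨ht, h⟩, ht'⟩
              exact ⟨ht, by rw [if_neg h]; exact ht'⟩
          have hQB : ∀ t ∈ Q, t ∉ B := by
            intro t ht h
            have := hQk t ht
            simp only [if_pos h] at this
            omega
          rw [e1] at hQer
          rw [e2]
          refine g2 k ?_ Q hQ ?_ ?_ hQer
          · have hsB : s ∉ B := by
              intro h
              rw [if_pos h] at hsk
              exact hk hsk.symm
            rw [if_neg hsB] at hsk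
            exact ⟨s, mem_sdiff.2 ⟨hsR, hsB⟩, hsk⟩
          · intro t ht
            exact mem_sdiff.2 ⟨hQR ht, hQB t ht⟩
          · intro t ht
            have := hQk t ht
            simp only [if_neg (hQB t ht)] at this
            exact this
      · have h1 : ∑ i, cnt (fun s => s ∈ R ∧ ξ i s ∈ R ∧
            (if ξ i s ∈ B then k0 else q1 (ξ i s)) ≠ (if s ∈ B then k0 else q1 s)) ≤
            er ξ R B + ∑ i, cnt (fun s => s ∈ R \ B ∧ ξ i s ∈ R \ B ∧ q1 (ξ i s) ≠ q1 s) := by
          unfold er
          rw [← Finset.sum_add_distrib]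
          refine Finset.sum_le_sum fun i _ => ?_
          have h2 : cnt (fun s => s ∈ R ∧ ξ i s ∈ R ∧
              (if ξ i s ∈ B then k0 else q1 (ξ i s)) ≠ (if s ∈ B then k0 else q1 s)) ≤
              cnt (fun s => (s ∈ B ∧ ξ i s ∈ R ∧ ξ i s ∉ B) ∨ (s ∈ R ∧ s ∉ B ∧ ξ i s ∈ B)) +
                cnt (fun s => s ∈ R \ B ∧ ξ i s ∈ R \ B ∧ q1 (ξ i s) ≠ q1 s) := by
            refine cnt_le_add fun s hs => ?_
            obtain ⟨hs1, hs2, hs3⟩ := hs
            by_cases hb : s ∈ B
            · by_cases hb' : ξ i s ∈ B
              · rw [if_pos hb, if_pos hb'] at hs3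
                exact absurd rfl hs3
              · exact Or.inl (Or.inl ⟨hb, hs2, hb'⟩)
            · by_cases hb' : ξ i s ∈ B
              · exact Or.inl (Or.inr ⟨hs1, hb, hb'⟩)
              · rw [if_neg hb, if_neg hb'] at hs3
                exact Or.inr ⟨mem_sdiff.2 ⟨hs1, hb⟩, mem_sdiff.2 ⟨hs2, hb'⟩, hs3⟩
          have h3 := cnt_or_le (fun s => s ∈ B ∧ ξ i s ∈ R ∧ ξ i s ∉ B)
            (fun s => s ∈ R ∧ s ∉ B ∧ ξ i s ∈ B)
          linarith
        refine h1.trans ?_
        have h4 : ((R \ B).card : ℝ) + (B.card : ℝ) = (R.card : ℝ) := by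
          have := Finset.card_sdiff_add_card_eq_card hBR
          exact_mod_cast this
        have h5 : η * (R.card : ℝ) = η * (B.card : ℝ) + η * ((R \ B).card : ℝ) := by
          rw [← h4]
          ring
        rw [h5]
        exact add_le_add hBer g3
    · rw [Finset.not_nonempty_iff_eq_empty] at hne
      subst hne
      refine ⟨fun _ => k0, by simp, by simp, ?_⟩
      refine le_of_eq ?_
      rw [Finset.card_empty, Nat.cast_zero, mul_zero]
      refine Finset.sum_eq_zero fun i _ => ?_
      have h1 : cnt (fun s => s ∈ (∅ : Finset A) ∧ ξ i s ∈ (∅ : Finset A) ∧ k0 ≠ k0) ≤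
          cnt (fun s => s ∈ (∅ : Finset A)) := cnt_mono fun s hs => hs.1
      rw [cnt_mem] at h1
      have h2 := cnt_nonneg (fun s => s ∈ (∅ : Finset A) ∧ ξ i s ∈ (∅ : Finset A) ∧ k0 ≠ k0)
      simp only [card_empty, Nat.cast_zero] at h1
      linarith

theorem greedy : Greedy := by
  intro n A _ ξ η hη
  obtain ⟨q, -, g2, g3⟩ := main ξ η hη _ (univ : Finset A) rfl 0
  refine ⟨q, ?_, ?_⟩
  · have e : bdry ξ q = ∑ i, cnt (fun s => s ∈ (univ : Finset A) ∧ ξ i s ∈ (univ : Finset A) ∧
        q (ξ i s) ≠ q s) := by
      unfold bdry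
      refine Finset.sum_congr rfl fun i _ => ?_
      congr 1
      funext s
      simp
    rw [e]
    exact g3
  · rintro k ⟨s, hs⟩ Q hQ hQk hQer
    have h := g2 k ⟨s, mem_univ _, hs⟩ Q hQ (subset_univ _) hQk hQer
    rw [cnt_eq]
    exact_mod_cast h

end Pool.Agent.Helper90.Sof
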